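import Pool.Agent.Helper26.RP.Goals

/-!
# MO2: the volume of the set of monotone polygons
-/

noncomputable section

namespace RP.PkMO2

open MeasureTheory Set

theorem mp_perm (α : Type) [MeasureSpace α] [SigmaFinite (volume : Measure α)] {n : ℕ}
    (σ : Equiv.Perm (Fin n)) :
    MeasurePreserving (fun x : Fin n → α => x ∘ σ) volume volume := by
  have h := volume_measurePreserving_piCongrLeft (fun _ : Fin n => α) σ.symm
  have e : (fun x : Fin n → α => x ∘ σ) =
      ⇑(MeasurableEquiv.piCongrLeft (fun _ : Fin n => α) σ.symm) := by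
    funext x i
    simp [MeasurableEquiv.piCongrLeft, Equiv.piCongrLeft, Equiv.piCongrLeft']
  rw [e]
  exact h

/-- Increasing vectors of the unit cube. -/
def S (n : ℕ) : Set (Fin n → ℝ) := {a | StrictMono a ∧ ∀ i, 0 ≤ a i ∧ a i ≤ 1}

theorem meas_S (n : ℕ) : MeasurableSet (S n) := by
  have e : S n = (⋂ i : Fin n, ⋂ j : Fin n, {a : Fin n → ℝ | i < j → a i < a j}) ∩
      ⋂ i : Fin n, ({a : Fin n → ℝ | 0 ≤ a i} ∩ {a : Fin n → ℝ | a i ≤ 1}) := by
    ext a
    simp only [S, mem_inter_iff, mem_iInter]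
    constructor
    · rintro ⟨h1, h2⟩
      exact ⟨fun i j hij => h1 hij, fun i => h2 i⟩
    · rintro ⟨h1, h2⟩
      exact ⟨fun i j hij => h1 i j hij, fun i => h2 i⟩
  rw [e]
  refine MeasurableSet.inter (MeasurableSet.iInter fun i => MeasurableSet.iInter fun j => ?_)
    (MeasurableSet.iInter fun i => MeasurableSet.inter ?_ ?_)
  · by_cases hij : i < j
    · have : {a : Fin n → ℝ | i < j → a i < a j} = {a : Fin n → ℝ | a i < a j} := by
        ext a
        exact ⟨fun h => h hij, fun h _ => h⟩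
      rw [this]
      exact measurableSet_lt (measurable_pi_apply i) (measurable_pi_apply j)
    · have : {a : Fin n → ℝ | i < j → a i < a j} = Set.univ := by
        ext a
        exact ⟨fun _ => trivial, fun _ h => absurd h hij⟩
      rw [this]
      exact MeasurableSet.univ
  · exact measurableSet_le measurable_const (measurable_pi_apply i)
  · exact measurableSet_le (measurable_pi_apply i) measurable_const

theorem null_eq {n : ℕ} {i j : Fin n} (hij : i ≠ j) :
    volume {a : Fin n → ℝ | a i = a j} = 0 := by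
  have h := Measure.addHaar_submodule (volume : Measure (Fin n → ℝ))
    (LinearMap.ker ((LinearMap.proj i : (Fin n → ℝ) →ₗ[ℝ] ℝ) - LinearMap.proj j)) (by
      intro htop
      have h1 : (Pi.single i 1 : Fin n → ℝ) ∈
          LinearMap.ker ((LinearMap.proj i : (Fin n → ℝ) →ₗ[ℝ] ℝ) - LinearMap.proj j) := by
        rw [htop]
        trivial
      rw [LinearMap.mem_ker] at h1
      simp [hij.symm] at h1)
  refine le_antisymm (le_of_le_of_eq (measure_mono ?_) h) bot_le
  intro a ha
  have ha' : a i = a j := ha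
  show a ∈ LinearMap.ker ((LinearMap.proj i : (Fin n → ℝ) →ₗ[ℝ] ℝ) - LinearMap.proj j)
  rw [LinearMap.mem_ker]
  simp [ha']

theorem vol_S (n : ℕ) : 1 ≤ (n.factorial : ENNReal) * volume (S n) := by
  classical
  have hcube : volume (Set.pi Set.univ fun _ : Fin n => Set.Icc (0:ℝ) 1) = 1 := by
    rw [volume_pi_pi]
    simp
  have hcov : (Set.pi Set.univ fun _ : Fin n => Set.Icc (0:ℝ) 1) ⊆
      (⋃ σ : Equiv.Perm (Fin n), (fun a : Fin n → ℝ => a ∘ σ) ⁻¹' S n) ∪
        ⋃ p : {p : Fin n × Fin n // p.1 ≠ p.2}, {a : Fin n → ℝ | a p.1.1 = a p.1.2} := by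
    intro a ha
    by_cases hinj : Function.Injective a
    · left
      refine mem_iUnion.mpr ⟨Tuple.sort a, ?_, ?_⟩
      · exact (Tuple.monotone_sort a).strictMono_of_injective
          (hinj.comp (Tuple.sort a).injective)
      · intro i
        exact ha _ (mem_univ _)
    · right
      rw [Function.Injective] at hinj
      push Not at hinj
      obtain ⟨i, j, h1, h2⟩ := hinj
      exact mem_iUnion.mpr ⟨⟨(i, j), h2⟩, h1⟩
  have h1 := (measure_mono hcov).trans (measure_union_le (μ := volume) _ _)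
  rw [hcube] at h1
  have h2 : volume (⋃ p : {p : Fin n × Fin n // p.1 ≠ p.2},
      {a : Fin n → ℝ | a p.1.1 = a p.1.2}) = 0 :=
    measure_iUnion_null fun p => null_eq p.2
  rw [h2, add_zero] at h1
  refine h1.trans ((measure_iUnion_le _).trans ?_)
  rw [tsum_fintype]
  have h3 : ∀ σ : Equiv.Perm (Fin n), volume ((fun a : Fin n → ℝ => a ∘ σ) ⁻¹' S n) =
      volume (S n) := fun σ =>
    (mp_perm ℝ σ).measure_preimage (meas_S n).nullMeasurableSet
  simp only [h3, Finset.sum_const, nsmul_eq_mul, Finset.card_univ, Fintype.card_perm,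
    Fintype.card_fin]
  exact le_rfl

/-- Increasing abscissas and heights in `A`. -/
def Z (n : ℕ) (A : Set (Fin n → ℝ)) : Set (Fin n → E) :=
  {z | (fun i => (z i).1) ∈ S n ∧ (fun i => (z i).2) ∈ A}

theorem Z_eq (n : ℕ) (A : Set (Fin n → ℝ)) :
    Z n A = (MeasurableEquiv.arrowProdEquivProdArrow ℝ ℝ (Fin n)) ⁻¹' (S n ×ˢ A) := by
  ext z
  rfl

theorem meas_Z (n : ℕ) {A : Set (Fin n → ℝ)} (hA : MeasurableSet A) : MeasurableSet (Z n A) := by
  rw [Z_eq]
  exact (MeasurableEquiv.arrowProdEquivProdArrow ℝ ℝ (Fin n)).measurable ((meas_S n).prod hA)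

theorem vol_Z (n : ℕ) {A : Set (Fin n → ℝ)} (hA : MeasurableSet A) :
    volume (Z n A) = volume (S n) * volume A := by
  rw [Z_eq, (volume_measurePreserving_arrowProdEquivProdArrow ℝ ℝ (Fin n)).measure_preimage
    ((meas_S n).prod hA).nullMeasurableSet, Measure.volume_eq_prod, Measure.prod_prod]

theorem GP_comp {n : ℕ} {x : Fin n → E} (h : GP x) (σ : Equiv.Perm (Fin n)) : GP (x ∘ σ) := by
  intro i j k hij hjk hik
  exact h _ _ _ (fun h => hij (σ.injective h)) (fun h => hjk (σ.injective h))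
    (fun h => hik (σ.injective h))

theorem mo2 : G_MO1 → G_MEA → G_NUL → G_MO2 := by
  intro hMO hMEA hNUL n A hn hAm hA
  obtain ⟨hMO1, hMO2⟩ := hMO n hn
  have hGPm : MeasurableSet {x : Fin n → E | GP x} := hMEA.2.1 (Fin n)
  have hGPae : ∀ᵐ x : Fin n → E, GP x := hNUL.2.1 (Fin n)
  set P : (Fin n → Bool) → Set (Fin n → E) :=
    fun τ => (fun x : Fin n → E => x ∘ ⇑(monoPerm τ)⁻¹) ⁻¹' Z n (A τ) with hP
  have hPm : ∀ τ, MeasurableSet (P τ) := fun τ =>
    (mp_perm E (monoPerm τ)⁻¹).measurable (meas_Z n (hAm τ))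
  have hPv : ∀ τ, volume (P τ) = volume (S n) * volume (A τ) := by
    intro τ
    rw [← vol_Z n (hAm τ)]
    exact (mp_perm E (monoPerm τ)⁻¹).measure_preimage (meas_Z n (hAm τ)).nullMeasurableSet
  have hPG : ∀ τ, volume (P τ ∩ {x : Fin n → E | GP x}) = volume (P τ) := by
    intro τ
    refine measure_congr ?_
    filter_upwards [hGPae] with x hx
    refine propext ⟨fun h => h.1, fun h => ⟨h, hx⟩⟩
  -- disjointness
  have hdisj : Pairwise (Function.onFun Disjoint fun τ => P τ ∩ {x : Fin n → E | GP x}) := by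
    intro τ τ' hne
    refine Set.disjoint_left.mpr ?_
    rintro x ⟨⟨h1, h2⟩, -⟩ ⟨⟨h3, h4⟩, -⟩
    refine hne (hMO2 τ τ' ?_ ?_)
    · intro i hi
      exact ⟨(hA τ _ h2).2.1 i hi, (hA τ' _ h4).2.1 i hi⟩
    · have m1 : StrictMono ((fun i => (x i).1) ∘ ⇑(monoPerm τ)⁻¹) := h1.1
      have m2 : StrictMono ((fun i => (x i).1) ∘ ⇑(monoPerm τ')⁻¹) := h3.1
      have e := (StrictMono.range_inj m1 m2).mp (by
        rw [Set.range_comp, Set.range_comp, (Equiv.surjective _).range_eq,
          (Equiv.surjective _).range_eq])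
      have hinj : Function.Injective fun i => (x i).1 := by
        intro a b hab
        have := m1.injective (a₁ := monoPerm τ a) (a₂ := monoPerm τ b) (by
          simpa using hab)
        exact (monoPerm τ).injective this
      have h5 : (monoPerm τ)⁻¹ = (monoPerm τ')⁻¹ := by
        ext i
        exact congrArg Fin.val (hinj (congrFun e i))
      exact inv_injective h5
  -- the polygons are simple
  have hsub : (⋃ τ, (P τ ∩ {x : Fin n → E | GP x})) ⊆
      {x : Fin n → E | (∀ i, x i ∈ Q0) ∧ Cl (finRotate n) x} := by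
    intro x hx
    obtain ⟨τ, ⟨h1, h2⟩, hg⟩ := mem_iUnion.mp hx
    have hg' : GP x := hg
    have hz := hMO1 τ (x ∘ ⇑(monoPerm τ)⁻¹) h1.1 (GP_comp hg' _) (hA τ _ h2).2
    have e : (x ∘ ⇑(monoPerm τ)⁻¹) ∘ ⇑(monoPerm τ) = x := by
      funext i
      simp
    rw [e] at hz
    refine ⟨?_, hz⟩
    intro i
    have a1 := h1.2 (monoPerm τ i)
    have a2 := (hA τ _ h2).1 (monoPerm τ i)
    have e2 : (monoPerm τ)⁻¹ ((monoPerm τ) i) = i := (monoPerm τ).symm_apply_apply i
    simp only [Function.comp, e2] at a1 a2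
    exact ⟨a1.1, a1.2, a2.1, a2.2⟩
  have hmain : ∑ τ, volume (P τ) ≤ vc n Q0 := by
    have h1 : volume (⋃ τ, (P τ ∩ {x : Fin n → E | GP x})) = ∑ τ, volume (P τ) := by
      rw [measure_iUnion hdisj (fun τ => (hPm τ).inter hGPm), tsum_fintype]
      exact Finset.sum_congr rfl fun τ _ => hPG τ
    rw [← h1]
    exact measure_mono hsub
  calc ∑ τ : Fin n → Bool, volume (A τ) = 1 * ∑ τ : Fin n → Bool, volume (A τ) := (one_mul _).symm
    _ ≤ ((n.factorial : ENNReal) * volume (S n)) * ∑ τ : Fin n → Bool, volume (A τ) := by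
        gcongr
        exact vol_S n
    _ = (n.factorial : ENNReal) * ∑ τ : Fin n → Bool, volume (P τ) := by
        rw [mul_assoc, Finset.mul_sum]
        congr 1
        exact Finset.sum_congr rfl fun τ _ => (hPv τ).symm
    _ ≤ _ := by
        gcongr

end RP.PkMO2
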